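import Pool.Agent.H71.CW.Gms

/-! GM3: the number of germs is invariant under isomorphisms. -/

set_option autoImplicit false

open Set

namespace Pool.Agent.CW

private theorem few_map3 {c c' : ℕ → ℕ → ℕ} {g : Equiv.Perm ℕ}
    (h : ∀ i j, c' (g i) (g j) = c i j) {k : ℕ} {Y A : Set ℕ} (hf : Few c k Y A) :
    Few c' k (g '' Y) (g '' A) := by
  obtain ⟨f, hf⟩ := hf
  refine ⟨fun x => f (g.symm x), ?_⟩
  rintro _ ⟨a, ha, rfl⟩ _ ⟨a', ha', rfl⟩ haa _ ⟨z, hz, rfl⟩
  simp only [Equiv.symm_apply_apply] at haa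
  have := hf a ha a' ha' haa z hz
  simpa only [ee, h] using this

private theorem fi_map3 {c c' : ℕ → ℕ → ℕ} {g : Equiv.Perm ℕ}
    (h : ∀ i j, c' (g i) (g j) = c i j) {A : Set ℕ} (hf : Fi c A) : Fi c' (g '' A) := by
  obtain ⟨m, hm⟩ := hf
  refine ⟨m, ?_⟩
  rw [← Set.image_compl_eq g.bijective]
  exact few_map3 h hm

theorem pf_GM3 : T_GM3 := by
  intro c c' g h m hc U hU f
  have h' : ∀ i j, c (g.symm i) (g.symm j) = c' i j := by
    intro i j
    rw [← h, Equiv.apply_symm_apply, Equiv.apply_symm_apply]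
  have hback : ∀ A : Set ℕ, g.symm '' (g '' A) = A := fun A => g.symm_image_image A
  have hfor : ∀ A : Set ℕ, g '' (g.symm '' A) = A := fun A => g.image_symm_image A
  have hD : Dirn c {A | g '' A ∈ U} := by
    refine ⟨?_, ?_, ?_, ?_, ?_⟩
    · intro A hA
      have := fi_map3 h' (hU.fi _ hA)
      rwa [hback] at this
    · intro A hA B hB hAB
      exact hU.up _ hA _ (fi_map3 h hB) (Set.image_mono hAB)
    · intro A hA B hB
      have := hU.int _ hA _ hB
      rw [← Set.image_inter g.injective] at this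
      exact this
    · intro A hA
      rcases hU.ult _ (fi_map3 h hA) with h1 | h1
      · exact Or.inl h1
      · refine Or.inr ?_
        rw [← Set.image_compl_eq g.bijective] at h1
        exact h1
    · intro A hA
      have := hU.fin _ hA
      exact (Set.infinite_image_iff g.injective.injOn).1 this
  obtain ⟨i, j, hij, A, hA, hy⟩ := hc _ hD (fun i => g.symm (f i))
  refine ⟨i, j, hij, g '' A, hA, ?_⟩
  rintro _ ⟨y, hyA, rfl⟩
  have h2 := hy y hyA
  have key : ∀ k, ee c' (f k) (g y) = ee c (g.symm (f k)) y := by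
    intro k
    unfold ee
    rw [← h' (f k) (g y), ← h' (g y) (f k), Equiv.symm_apply_apply]
  rw [key, key]
  exact h2

end Pool.Agent.CW
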