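import Pool.Agent.H75.CW.END
import Pool.Agent.H16.CW.DTX
import Pool.Agent.H16.CW.OMI

/-! The decoding from the statements of group C and the topological part. -/

set_option autoImplicit false

open Set Topology Pool.Agent.TK Pool.Agent.H71.VK

namespace Pool.Agent.CW

theorem pf_E_END {C : Type} [MeasurableSpace C] (hINV : T_INV C) (hTYP : T_TYP C)
    (hDCD : T_DCD C) (hBLK : T_BLK C) (hRP0 : T_RP0 C) (hEXN : T_EXN C) (hIOT : T_IOT C)
    (hMEX : T_MEX C) (hMES : T_MES C) (hTOP : TOP) : E_END C :=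
  pf_END (pf_DF hINV hTYP hDCD hBLK) (pf_DTX hEXN hRP0) (pf_OMI hIOT) hTOP hMEX hMES

end Pool.Agent.CW
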