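import Pool.Agent.H76.CW.StmtC
import Pool.Agent.H71.CW.Top

/-!
Statements of group E2: the decoding (section 8 of the text).
-/

set_option autoImplicit false

open Set Pool.Agent.TK Pool.Agent.H71.VK

namespace Pool.Agent.CW

open Classical in
/-- the point at infinity given by a branch -/
noncomputable def wp {C : Type} (N : St (C × ℕ)) (D : List Bool → Pr) (p : ℕ → Bool) :
    Pr → Bool :=
  fun π => decide (Vd (bn N) π ∧ ∃ m, st (bn N) (D (pre p m)) ⊆ st (bn N) π)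

/-- the facts on the structure `N` in which the blocks of the tree `T` are replaced -/
structure DF {C : Type} (N : St (C × ℕ)) (D B : List Bool → Pr) (T : Set (List Bool))
    (Θ : ℕ → Set (Tr C)) : Prop where
  vD : ∀ s, Vd (bn N) (D s)
  vB : ∀ s, Vd (bn N) (B s)
  suf : ∀ i s, ∃ σ : Pr, D (i :: s) = σ ++ D s
  suB : ∀ s, ∃ σ : Pr, B s = σ ++ D s
  dj : ∀ s, Disjoint (st (bn N) (D (true :: s))) (st (bn N) (D (false :: s)))
  djB : ∀ i s, Disjoint (st (bn N) (B s)) (st (bn N) (D (i :: s)))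
  dec : ∀ ρ : Pr, Vd (bn N) ρ → ∃ m : ℕ, ∀ s : List Bool, m ≤ s.length →
    st (bn N) (D s) ⊆ st (bn N) ρ ∨ Disjoint (st (bn N) (D s)) (st (bn N) ρ)
  vtx : ∀ v : ℕ, ∃ m : ℕ, ∀ s : List Bool, m ≤ s.length → v ∉ st (bn N) (D s)
  ne : ∀ s, (st (bn N) (B s)).Nonempty
  mono : ∀ i j, i ≤ j → Θ i ⊆ Θ j
  new : ∀ s ∈ T, ¬ InO (Θ (Encodable.encode s)) N (zl (B s)) (st (bn N) (B s))
  old : ∀ (s : List Bool) (ρ : Pr), Vd (bn N) ρ →
    (∀ t ∈ T, t ≠ s → Disjoint (st (bn N) (B t)) (st (bn N) ρ)) →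
    InO (Θ (Encodable.encode s + 1)) N (zl ρ) (st (bn N) ρ)
  old0 : ∀ ρ : Pr, Vd (bn N) ρ → (∀ t ∈ T, Disjoint (st (bn N) (B t)) (st (bn N) ρ)) →
    InO (Θ 0) N (zl ρ) (st (bn N) ρ)
  tail : ∀ i s, i :: s ∈ T → s ∈ T

/-- EDF: the facts on the structure in which the blocks of a tree are replaced. -/
def E_DF (C : Type) : Prop :=
  ∀ (c0 : C) (n : ℕ) (b : Rk) (M : St (C × ℕ)) (Sm : Pr → Prop) (D B : List Bool → Pr)
    (R : List Bool → St (C × ℕ)), DT c0 n b M Sm D B R →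
    ∀ T : Set (List Bool), (∀ i s, i :: s ∈ T → s ∈ T) →
    DF (rp M (fun s => st (bn M) (B s)) (fun s => zl (B s)) R T) D B T
      (TT M (fun s => st (bn M) (B s)) (fun s => zl (B s)) R)

/-- WIN: branches give points at infinity. -/
def E_WIN (C : Type) : Prop :=
  ∀ (N : St (C × ℕ)) (D B : List Bool → Pr) (T : Set (List Bool)) (Θ : ℕ → Set (Tr C)),
    DF N D B T Θ → ∀ p ∈ Br T, wp N D p ∈ Om Θ N

/-- WEX: all points at infinity come from branches. -/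
def E_WEX (C : Type) : Prop :=
  ∀ (N : St (C × ℕ)) (D B : List Bool → Pr) (T : Set (List Bool)) (Θ : ℕ → Set (Tr C)),
    DF N D B T Θ → ∀ w ∈ Om Θ N, ∃ p ∈ Br T, wp N D p = w

/-- HMD: the homeomorphism. -/
def E_HMD (C : Type) : Prop :=
  ∀ (N : St (C × ℕ)) (D B : List Bool → Pr) (T : Set (List Bool)) (Θ : ℕ → Set (Tr C)),
    DF N D B T Θ → Nonempty (Br T ≃ₜ Om Θ N)

/-- OMI: the space of points at infinity is an isomorphism invariant. -/
def E_OMI (C : Type) : Prop :=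
  ∀ (M N : St (C × ℕ)) (h : Equiv.Perm ℕ), IsoH h M N → ∀ Θ : ℕ → Set (Tr C),
    Nonempty (Om Θ M ≃ₜ Om Θ N)

/-- DTX: the sequence of new blocks. -/
def E_DTX (C : Type) [MeasurableSpace C] : Prop :=
  ∀ (c0 : C) (n : ℕ) (b : Rk) (X : Set (St (C × ℕ))), Hy c0 n b X → ∀ M ∈ X,
    ∀ (Sm : Pr → Prop) (D B : List Bool → Pr), Sch (bn M) Sm D B →
    (∀ π : Pr, Vd (bn M) π → sml c0 n b M (zl π) (st (bn M) π) → Sm π) →
    ∃ R : List Bool → St (C × ℕ), DT c0 n b M Sm D B R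

/-- END: a Cantor scheme contradicts the hypotheses. -/
def E_END (C : Type) [MeasurableSpace C] : Prop :=
  ∀ (c0 : C) (n : ℕ) (b : Rk) (X : Set (St (C × ℕ))), Hy c0 n b X → ∀ M ∈ X,
    ∀ (Sm : Pr → Prop) (D B : List Bool → Pr), Sch (bn M) Sm D B →
    (∀ π : Pr, Vd (bn M) π → sml c0 n b M (zl π) (st (bn M) π) → Sm π) → False

end Pool.Agent.CW
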