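import Pool.Agent.H75.CW.StmtE
import Pool.Agent.H16.TK.Base

/-! DF: the facts on the structure in which the blocks of a tree are replaced. -/

set_option autoImplicit false

open Set Pool.Agent.TK Pool.Agent.H71.VK

namespace Pool.Agent.CW

/-- two finite sequences, read from the end -/
lemma tail_cases : ∀ (s t : List Bool), (∃ u, t = u ++ s) ∨ (∃ u i, s = u ++ i :: t) ∨
    ∃ r u v i, s = u ++ i :: r ∧ t = v ++ (!i) :: r
  | [], t => Or.inl ⟨t, by simp⟩
  | i :: s, t => by
    rcases tail_cases s t with ⟨u, h⟩ | ⟨u, j, h⟩ | ⟨r, u, v, j, h, h'⟩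
    · rcases List.eq_nil_or_concat u with h1 | ⟨u', j, h1⟩
      · subst h1
        exact Or.inr (Or.inl ⟨[], i, by rw [h]; rfl⟩)
      · rw [List.concat_eq_append] at h1
        subst h1
        by_cases hj : j = i
        · subst hj
          exact Or.inl ⟨u', by rw [h]; simp⟩
        · refine Or.inr (Or.inr ⟨s, [], u', i, rfl, ?_⟩)
          rw [h]
          have : j = !i := by
            cases i <;> cases j <;> simp_all
          rw [this]
          simp
    · exact Or.inr (Or.inl ⟨i :: u, j, by rw [h]; rfl⟩)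
    · exact Or.inr (Or.inr ⟨r, i :: u, v, j, by rw [h]; rfl, h'⟩)

section
variable {c : ℕ → ℕ → ℕ} {Sm : Pr → Prop} {D B : List Bool → Pr}

lemma Sch.dSub (h : Sch c Sm D B) (u s : List Bool) : st c (D (u ++ s)) ⊆ st c (D s) := by
  induction u with
  | nil => exact subset_rfl
  | cons i u ih =>
    obtain ⟨σ, hσ⟩ := h.suf i (u ++ s)
    have h1 : Vd c (σ ++ D (u ++ s)) := hσ ▸ h.vD (i :: (u ++ s))
    have h2 := st_app h1
    rw [← hσ] at h2
    exact h2.trans ih

lemma Sch.bSub (h : Sch c Sm D B) (s : List Bool) : st c (B s) ⊆ st c (D s) := by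
  obtain ⟨σ, hσ⟩ := h.suB s
  have h1 : Vd c (σ ++ D s) := hσ ▸ h.vB s
  have h2 := st_app h1
  rwa [← hσ] at h2

/-- blocks are not split by the pieces of the scheme -/
lemma Sch.blk (h : Sch c Sm D B) (s t : List Bool) :
    st c (B t) ⊆ st c (D s) ∨ Disjoint (st c (B t)) (st c (D s)) := by
  rcases tail_cases s t with ⟨u, hu⟩ | ⟨u, i, hu⟩ | ⟨r, u, v, i, hu, hv⟩
  · left
    subst hu
    exact (h.bSub _).trans (h.dSub u s)
  · right
    subst hu
    exact (h.djB i t).mono_right (h.dSub u (i :: t))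
  · right
    subst hu hv
    have h1 : Disjoint (st c (D ((!i) :: r))) (st c (D (i :: r))) := by
      cases i with
      | true => exact (h.dj r).symm
      | false => exact h.dj r
    exact h1.mono ((h.bSub _).trans (h.dSub v _)) (h.dSub u _)

end

lemma InO.mono {C : Type} {O O' : Set (Tr C)} (h : O ⊆ O') {M : St (C × ℕ)} {z : List ℕ}
    {P : Set ℕ} (H : InO O M z P) : InO O' M z P := by
  obtain ⟨t, ht, H⟩ := H
  exact ⟨t, h ht, H⟩

lemma InO.of_fi {C : Type} {O : Set (Tr C)} {M N : St (C × ℕ)} {z y : List ℕ} {P Q : Set ℕ}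
    (h : FI M z P N y Q) (H : InO O N y Q) : InO O M z P := by
  obtain ⟨t, ht, H⟩ := H
  exact ⟨t, ht, h.trans H⟩

theorem pf_DF {C : Type} (hINV : T_INV C) (hTYP : T_TYP C) (hDCD : T_DCD C)
    (hBLK : T_BLK C) : E_DF C := by
  intro c0 n b M Sm D B R hD T hT
  have hs := hD.sch
  have hra := hD.ra
  set Bs : List Bool → Set ℕ := fun s => st (bn M) (B s) with hBs
  set zs : List Bool → List ℕ := fun s => zl (B s) with hzs
  have iD : ∀ s, (Vd (bn (rp M Bs zs R T)) (D s)) ∧
      st (bn (rp M Bs zs R T)) (D s) = st (bn M) (D s) := by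
    intro s
    have h := hINV _ c0 n b M Bs zs R hra T (D s) (fun a ha i _ => hs.pD s i a ha)
    exact ⟨h.1.2 (hs.vD s), h.2.2 fun i _ => hs.blk s i⟩
  have iB : ∀ s, (Vd (bn (rp M Bs zs R T)) (B s)) ∧
      st (bn (rp M Bs zs R T)) (B s) = st (bn M) (B s) := by
    intro s
    have h := hINV _ c0 n b M Bs zs R hra T (B s) (fun a ha i _ => hs.pB s i a ha)
    refine ⟨h.1.2 (hs.vB s), h.2.2 fun i _ => ?_⟩
    by_cases hi : i = s
    · subst hi
      exact Or.inl subset_rfl
    · exact Or.inr (hra.disj i s hi)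
  refine
    { vD := fun s => (iD s).1
      vB := fun s => (iB s).1
      suf := hs.suf
      suB := hs.suB
      dj := ?_
      djB := ?_
      dec := ?_
      vtx := ?_
      ne := ?_
      mono := ?_
      new := ?_
      old := ?_
      old0 := ?_
      tail := hT }
  · intro s
    rw [(iD _).2, (iD _).2]
    exact hs.dj s
  · intro i s
    rw [(iB _).2, (iD _).2]
    exact hs.djB i s
  · intro ρ hρ
    obtain ⟨π', hπ', h1⟩ := hDCD _ c0 n b M Bs zs R hra T ρ hρ
    obtain ⟨m, hm⟩ := hs.dec π' hπ'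
    refine ⟨m, fun s hsm => ?_⟩
    rw [(iD s).2]
    obtain ⟨h2, h3⟩ := h1 (st (bn M) (D s)) (fun i _ => hs.blk s i)
    rcases hm s hsm with h4 | h4
    · exact Or.inl (h2 h4)
    · exact Or.inr (h3 h4)
  · intro v
    obtain ⟨m, hm⟩ := hs.vtx v
    refine ⟨m, fun s hsm => ?_⟩
    rw [(iD s).2]
    exact hm s hsm
  · intro s
    rw [(iB s).2]
    exact hs.ne s
  · rintro i j hij t ⟨σ, h1, h2⟩
    exact ⟨σ, fun s hs => (h1 s hs).trans_le hij, h2⟩
  · intro s hsT h
    rw [(iB s).2] at h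
    exact hD.new s (InO.of_fi (hBLK _ c0 n b M Bs zs R hra T s hsT).symm h)
  · intro s ρ hρ h
    obtain ⟨π', h1, h2, h3⟩ := hTYP _ c0 n b M Bs zs R hra T (T ∩ {s}) inter_subset_left ρ hρ
      (fun i hi hi' => by
        have hne : i ≠ s := fun h4 => hi' ⟨hi, h4⟩
        have h5 := h i hi hne
        rwa [(iB i).2] at h5)
    refine InO.of_fi h3 ⟨(rp M Bs zs R (T ∩ {s}), zl π', st (bn (rp M Bs zs R (T ∩ {s}))) π'),
      ⟨T ∩ {s}, ?_, π', h1, rfl⟩, FI.refl _ _ _⟩
    rintro s' ⟨-, hs'⟩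
    rw [mem_singleton_iff.1 hs']
    exact Nat.lt_succ_self _
  · intro ρ hρ h
    obtain ⟨π', h1, h2, h3⟩ := hTYP _ c0 n b M Bs zs R hra T ∅ (empty_subset _) ρ hρ
      (fun i hi _ => by
        have h5 := h i hi
        rwa [(iB i).2] at h5)
    refine InO.of_fi h3 ⟨(rp M Bs zs R ∅, zl π', st (bn (rp M Bs zs R ∅)) π'),
      ⟨∅, ?_, π', h1, rfl⟩, FI.refl _ _ _⟩
    intro s' hs'
    exact absurd hs' (notMem_empty _)

end Pool.Agent.CW
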