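import Pool.Agent.H41.CW.StmtD

/-!
# MVB: moves by local automorphisms are Borel
-/

set_option autoImplicit false

open Set Pool.Agent.TK Pool.Agent.H71.VK

namespace Pool.Agent.CW

open Pool.Agent.H94.VK (fih_add fih_rem isoH_fih zip_map_eq)

namespace MVB

variable {C : Type}

lemma map_of_zip (f : ℕ → ℕ) : ∀ l m : List ℕ, l.length = m.length →
    (∀ p ∈ l.zip m, f p.1 = p.2) → l.map f = m
  | [], [], _, _ => rfl
  | [], _ :: _, h, _ => by simp at h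
  | _ :: _, [], h, _ => by simp at h
  | a :: l, b :: m, h, H => by
    rw [List.map_cons]
    congr 1
    · exact H (a, b) (by simp)
    · exact map_of_zip f l m (by simpa using h) fun p hp => H p (by
        rw [List.zip_cons_cons]
        exact List.mem_cons_of_mem _ hp)

lemma meas_all [MeasurableSpace C] {A : St (C × ℕ) → Set ℕ}
    (hA : ∀ x, MeasurableSet {M : St (C × ℕ) | x ∈ A M}) (u : List ℕ) :
    MeasurableSet {M : St (C × ℕ) | ∀ z ∈ u, z ∈ A M} := by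
  have h : {M : St (C × ℕ) | ∀ z ∈ u, z ∈ A M} = ⋂ z ∈ ms u, {M : St (C × ℕ) | z ∈ A M} := by
    ext M
    simp only [mem_ofPred_eq, mem_iInter, mem_ms]
  rw [h]
  exact MeasurableSet.biInter (to_countable _) fun z _ => hA z

/-- the data of a move -/
abbrev Dat := Pr × List ℕ × List ℕ × List ℕ

/-- the condition which describes a move with type `t` -/
def Cond (t : Tr C) (d : Dat) (l m : List ℕ) (M : St (C × ℕ)) : Prop :=
  Vd (bn M) d.1 ∧ l.length = m.length ∧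
  (∀ z ∈ d.2.1, z ∈ st (bn M) d.1) ∧ (∀ z ∈ d.2.2.1, z ∈ st (bn M) d.1) ∧
  (zl d.1).length = t.2.1.length ∧
  FI M (zl d.1 ++ d.2.1) (st (bn M) d.1) t.1 (t.2.1 ++ d.2.2.2) t.2.2 ∧
  FI M (zl d.1 ++ d.2.2.1) (st (bn M) d.1) t.1 (t.2.1 ++ d.2.2.2) t.2.2 ∧
  ∀ p ∈ l.zip m, p ∈ d.2.1.zip d.2.2.1 ∨ (p.1 = p.2 ∧ p.1 ∉ st (bn M) d.1)

theorem cond_of_mv {O : Set (Tr C)} {M : St (C × ℕ)} {l m : List ℕ} (h : MvA O M l m) :
    ∃ t ∈ O, ∃ d : Dat, Cond t d l m M := by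
  classical
  obtain ⟨f, ⟨hf, π, hv, ⟨t, ht, h0, H0⟩, hfix⟩, rfl⟩ := h
  set D : Set ℕ := st (bn M) π with hD
  have hfz : ∀ z ∈ zl π, f z = z := fun z hz => hfix z (zl_disj hv z hz)
  have hfD : f '' D = D := by
    apply Set.Subset.antisymm
    · rintro _ ⟨x, hx, rfl⟩
      by_contra h1
      have h2 := hfix (f x) h1
      rw [f.injective h2] at h1
      exact h1 hx
    · intro x hx
      refine ⟨f.symm x, ?_, f.apply_symm_apply x⟩
      by_contra h1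
      have h2 := hfix (f.symm x) h1
      rw [f.apply_symm_apply] at h2
      rw [← h2] at h1
      exact h1 hx
  set u : List ℕ := l.filter (fun z => decide (z ∈ D)) with hu
  have huD : ∀ z ∈ u, z ∈ D := by
    intro z hz
    rw [hu, List.mem_filter] at hz
    simpa using hz.2
  have huD' : ∀ z ∈ u.map f, z ∈ D := by
    intro z hz
    obtain ⟨w, hw, rfl⟩ := List.mem_map.1 hz
    rw [← hfD]
    exact mem_image_of_mem f (huD w hw)
  have F1 : FI M (zl π ++ u) D t.1 (t.2.1 ++ u.map h0) t.2.2 := ⟨h0, fih_add H0 u huD⟩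
  have F2 : FI M (zl π ++ u) D M (zl π ++ u.map f) D :=
    ⟨f, fih_add (isoH_fih hf hfz hfD) u huD⟩
  refine ⟨t, ht, (π, u, u.map f, u.map h0), hv, (List.length_map _).symm, huD, huD', H0.1, F1,
    F2.symm.trans F1, ?_⟩
  intro p hp
  change p ∈ u.zip (u.map f) ∨ (p.1 = p.2 ∧ p.1 ∉ D)
  rw [← zip_map_eq]
  rw [← zip_map_eq] at hp
  obtain ⟨a, ha, rfl⟩ := List.mem_map.1 hp
  by_cases h1 : a ∈ D
  · refine Or.inl (List.mem_map.2 ⟨a, ?_, rfl⟩)
    rw [hu, List.mem_filter]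
    exact ⟨ha, by simpa using h1⟩
  · exact Or.inr ⟨(hfix a h1).symm, h1⟩

theorem mv_of_cond {c0 : C} {n : ℕ} (hGLA : T_GLA C c0) {O : Set (Tr C)} {M : St (C × ℕ)}
    (hM : BV c0 n M) {l m : List ℕ} {t : Tr C} (ht : t ∈ O) {d : Dat} (h : Cond t d l m M) :
    MvA O M l m := by
  obtain ⟨π, u, u', w⟩ := d
  obtain ⟨hv, hlm, hu, hu', hst, F1, F2, hp⟩ := h
  simp only at hv hu hu' hst F1 F2 hp
  obtain ⟨g, F3⟩ := F1.trans F2.symm
  obtain ⟨F4, hg⟩ := fih_rem rfl hu F3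
  obtain ⟨f, hf, hfg, hfix⟩ := hGLA n M hM π hv g F4
  obtain ⟨h1, H1⟩ := F1
  refine ⟨f, ⟨hf, π, hv, ⟨t, ht, h1, (fih_rem hst hu H1).1⟩, hfix⟩, ?_⟩
  refine map_of_zip f l m hlm fun p hpm => ?_
  rcases hp p hpm with h | ⟨h2, h3⟩
  · rw [hfg _ (hu _ (List.of_mem_zip h).1)]
    exact hg p h
  · rw [hfix _ h3]
    exact h2

theorem meas_cond [MeasurableSpace C] [StandardBorelSpace C] (hMST : T_MST C) (hFIMP : T_FIMP C)
    (t : Tr C) (d : Dat) (l m : List ℕ) : MeasurableSet {M : St (C × ℕ) | Cond t d l m M} := by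
  unfold Cond
  refine (hMST d.1).2.inter ((MeasurableSet.const _).inter ((meas_all (hMST d.1).1 _).inter
    ((meas_all (hMST d.1).1 _).inter ((MeasurableSet.const _).inter ((hFIMP _ _ _ _ _).inter
    ((hFIMP _ _ _ _ _).inter ?_))))))
  have h : {M : St (C × ℕ) | ∀ p ∈ l.zip m, p ∈ d.2.1.zip d.2.2.1 ∨
      (p.1 = p.2 ∧ p.1 ∉ st (bn M) d.1)} =
      ⋂ p ∈ {p | p ∈ l.zip m}, {M : St (C × ℕ) | p ∈ d.2.1.zip d.2.2.1 ∨
      (p.1 = p.2 ∧ p.1 ∉ st (bn M) d.1)} := by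
    ext M
    simp only [mem_ofPred_eq, mem_iInter]
  change MeasurableSet {M : St (C × ℕ) | ∀ p ∈ l.zip m, p ∈ d.2.1.zip d.2.2.1 ∨
      (p.1 = p.2 ∧ p.1 ∉ st (bn M) d.1)}
  rw [h]
  exact MeasurableSet.biInter (to_countable _) fun p _ => (MeasurableSet.const _).union
    ((MeasurableSet.const _).inter ((hMST d.1).1 p.1).compl)

end MVB

open MVB in
theorem pf_MVB {C : Type} {c0 : C} [MeasurableSpace C] [StandardBorelSpace C]
    (hMST : T_MST C) (hMBV : T_MBV C) (hFIMP : T_FIMP C) (hGLA : T_GLA C c0) : T_MVB C c0 := by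
  intro n O hO l m
  have h : {M : St (C × ℕ) | BV c0 n M ∧ MvA O M l m} = {M : St (C × ℕ) | BV c0 n M} ∩
      ⋃ t ∈ O, ⋃ d : Dat, {M : St (C × ℕ) | Cond t d l m M} := by
    ext M
    simp only [mem_inter_iff, mem_ofPred_eq, mem_iUnion, exists_prop]
    constructor
    · rintro ⟨h1, h2⟩
      exact ⟨h1, cond_of_mv h2⟩
    · rintro ⟨h1, t, ht, d, h2⟩
      exact ⟨h1, mv_of_cond hGLA h1 ht h2⟩
  rw [h]
  exact (hMBV c0 n).inter (MeasurableSet.biUnion hO fun t _ =>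
    MeasurableSet.iUnion fun d => meas_cond hMST hFIMP t d l m)

end Pool.Agent.CW
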