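import Pool.Agent.H75.CW.MVB

/-!
# MVC: moves by swaps of components are Borel
-/

set_option autoImplicit false

open Set Pool.Agent.TK Pool.Agent.H71.VK

namespace Pool.Agent.CW

open Pool.Agent.H94.VK (fih_add fih_rem isoH_fih zip_map_eq)

namespace MVC

variable {C : Type}

/-- the data of a swap: presentation, parameters, table, two base points and three lists -/
abbrev Dat := (Pr × List ℕ × Tab × ℕ × ℕ) × List ℕ × List ℕ × List ℕ

/-- the first component -/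
abbrev Dat.p (d : Dat) : Pr := (d.1.2.1, d.1.2.2.1, d.1.2.2.2.1, true) :: d.1.1

/-- the second component -/
abbrev Dat.q (d : Dat) : Pr := (d.1.2.1, d.1.2.2.1, d.1.2.2.2.2, true) :: d.1.1

/-- the condition which describes a swap with type `t` -/
def Cond (t : Tr C) (d : Dat) (l m : List ℕ) (M : St (C × ℕ)) : Prop :=
  Sy d.1.2.2.1 ∧ Vd (bn M) d.p ∧ Vd (bn M) d.q ∧ d.1.2.2.2.2 ∉ st (bn M) d.p ∧
  l.length = m.length ∧
  (∀ z ∈ d.2.1, z ∈ st (bn M) d.p) ∧ (∀ z ∈ d.2.2.1, z ∈ st (bn M) d.q) ∧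
  (zl d.p).length = t.2.1.length ∧
  FI M (zl d.p ++ d.2.1) (st (bn M) d.p) t.1 (t.2.1 ++ d.2.2.2) t.2.2 ∧
  FI M (zl d.p ++ d.2.2.1) (st (bn M) d.q) t.1 (t.2.1 ++ d.2.2.2) t.2.2 ∧
  ∀ p ∈ l.zip m, p ∈ d.2.1.zip d.2.2.1 ∨ (p.2, p.1) ∈ d.2.1.zip d.2.2.1 ∨
    (p.1 = p.2 ∧ p.1 ∉ st (bn M) d.p ∧ p.1 ∉ st (bn M) d.q)

theorem cond_of_mv {O : Set (Tr C)} {M : St (C × ℕ)} {l m : List ℕ} (h : MvS O M l m) :
    ∃ t ∈ O, ∃ d : Dat, Cond t d l m M := by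
  classical
  obtain ⟨f, ⟨hf, hff, π, S, F, v, v', hF, hv, hv', hne, ⟨t, ht, h0, H0⟩, hfD, hfix⟩, rfl⟩ := h
  set D : Set ℕ := st (bn M) ((S, F, v, true) :: π) with hD
  set D' : Set ℕ := st (bn M) ((S, F, v', true) :: π) with hD'
  have hfz : ∀ z ∈ S ++ zl π, f z = z := fun z hz =>
    hfix z (zl_disj (π := (S, F, v, true) :: π) hv z hz)
      (zl_disj (π := (S, F, v', true) :: π) hv' z hz)
  have hforw : ∀ a ∈ D, f a ∈ D' := fun a ha => by
    rw [← hfD]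
    exact mem_image_of_mem f ha
  have hback : ∀ a ∈ D', f a ∈ D := by
    intro a ha
    rw [← hfD] at ha
    obtain ⟨b, hb, rfl⟩ := ha
    rw [hff]
    exact hb
  have hfD2 : f '' D' = D := by
    ext x
    constructor
    · rintro ⟨y, hy, rfl⟩
      exact hback y hy
    · intro hx
      exact ⟨f x, hforw x hx, hff x⟩
  set u : List ℕ := (l ++ l.map f).filter (fun z => decide (z ∈ D)) with hu
  have huD : ∀ z ∈ u, z ∈ D := by
    intro z hz
    rw [hu, List.mem_filter] at hz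
    simpa using hz.2
  have huD' : ∀ z ∈ u.map f, z ∈ D' := by
    intro z hz
    obtain ⟨w, hw, rfl⟩ := List.mem_map.1 hz
    exact hforw w (huD w hw)
  have F1 : FI M ((S ++ zl π) ++ u) D t.1 (t.2.1 ++ u.map h0) t.2.2 := ⟨h0, fih_add H0 u huD⟩
  have F2 : FI M ((S ++ zl π) ++ u.map f) D' M ((S ++ zl π) ++ u) D := by
    have h1 := fih_add (isoH_fih hf hfz hfD2) (u.map f) huD'
    have h2 : (u.map f).map f = u := by
      rw [List.map_map]
      conv_rhs => rw [← List.map_id u]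
      exact List.map_congr_left fun z _ => hff z
    rw [h2] at h1
    exact ⟨_, h1⟩
  refine ⟨t, ht, ((π, S, F, v, v'), u, u.map f, u.map h0), hF, hv, hv', hne,
    (List.length_map _).symm, huD, huD', H0.1, F1, F2.trans F1, ?_⟩
  intro p hp
  change p ∈ u.zip (u.map f) ∨ (p.2, p.1) ∈ u.zip (u.map f) ∨ (p.1 = p.2 ∧ p.1 ∉ D ∧ p.1 ∉ D')
  rw [← zip_map_eq]
  rw [← zip_map_eq] at hp
  obtain ⟨a, ha, rfl⟩ := List.mem_map.1 hp
  simp only
  have hfa : f a ∈ l ++ l.map f := List.mem_append.2 (Or.inr (List.mem_map_of_mem ha))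
  have haa : a ∈ l ++ l.map f := List.mem_append.2 (Or.inl ha)
  by_cases h1 : a ∈ D
  · refine Or.inl (List.mem_map.2 ⟨a, ?_, rfl⟩)
    rw [hu, List.mem_filter]
    exact ⟨haa, by simpa using h1⟩
  · by_cases h2 : a ∈ D'
    · refine Or.inr (Or.inl (List.mem_map.2 ⟨f a, ?_, ?_⟩))
      · rw [hu, List.mem_filter]
        exact ⟨hfa, by simpa using hback a h2⟩
      · rw [hff]
    · exact Or.inr (Or.inr ⟨(hfix a h1 h2).symm, h1, h2⟩)

theorem mv_of_cond {c0 : C} {n : ℕ} (hGSW : T_GSW C c0) {O : Set (Tr C)} {M : St (C × ℕ)}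
    (hM : BV c0 n M) {l m : List ℕ} {t : Tr C} (ht : t ∈ O) {d : Dat} (h : Cond t d l m M) :
    MvS O M l m := by
  obtain ⟨⟨π, S, F, v, v'⟩, u, u', w⟩ := d
  obtain ⟨hF, hv, hv', hne, hlm, hu, hu', hst, F1, F2, hp⟩ := h
  simp only [Dat.p, Dat.q] at hF hv hv' hne hu hu' hst F1 F2 hp
  obtain ⟨g, F3⟩ := F1.trans F2.symm
  obtain ⟨F4, hg⟩ := fih_rem rfl hu F3
  obtain ⟨f, hf, hff, hfg, hfD, hfix⟩ := hGSW n M hM π S F v v' hF hv hv' hne g F4
  obtain ⟨h1, H1⟩ := F1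
  refine ⟨f, ⟨hf, hff, π, S, F, v, v', hF, hv, hv', hne, ⟨t, ht, h1, (fih_rem hst hu H1).1⟩,
    hfD, hfix⟩, ?_⟩
  refine MVB.map_of_zip f l m hlm fun p hpm => ?_
  rcases hp p hpm with h | h | ⟨h2, h3, h4⟩
  · rw [hfg _ (hu _ (List.of_mem_zip h).1)]
    exact hg p h
  · have h5 := hg _ h
    simp only at h5
    rw [← hfg _ (hu _ (List.of_mem_zip h).1)] at h5
    rw [← h5, hff]
  · rw [hfix _ h3 h4]
    exact h2

theorem meas_cond [MeasurableSpace C] [StandardBorelSpace C] (hMST : T_MST C) (hFIMP : T_FIMP C)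
    (t : Tr C) (d : Dat) (l m : List ℕ) : MeasurableSet {M : St (C × ℕ) | Cond t d l m M} := by
  unfold Cond
  refine (MeasurableSet.const _).inter ((hMST d.p).2.inter ((hMST d.q).2.inter
    (((hMST d.p).1 _).compl.inter ((MeasurableSet.const _).inter
    ((MVB.meas_all (hMST d.p).1 _).inter ((MVB.meas_all (hMST d.q).1 _).inter
    ((MeasurableSet.const _).inter ((hFIMP _ _ _ _ _).inter
    ((hFIMP _ _ _ _ _).inter ?_)))))))))
  have h : {M : St (C × ℕ) | ∀ p ∈ l.zip m, p ∈ d.2.1.zip d.2.2.1 ∨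
      (p.2, p.1) ∈ d.2.1.zip d.2.2.1 ∨
      (p.1 = p.2 ∧ p.1 ∉ st (bn M) d.p ∧ p.1 ∉ st (bn M) d.q)} =
      ⋂ p ∈ {p | p ∈ l.zip m}, {M : St (C × ℕ) | p ∈ d.2.1.zip d.2.2.1 ∨
      (p.2, p.1) ∈ d.2.1.zip d.2.2.1 ∨
      (p.1 = p.2 ∧ p.1 ∉ st (bn M) d.p ∧ p.1 ∉ st (bn M) d.q)} := by
    ext M
    simp only [mem_ofPred_eq, mem_iInter]
  change MeasurableSet {M : St (C × ℕ) | ∀ p ∈ l.zip m, p ∈ d.2.1.zip d.2.2.1 ∨
      (p.2, p.1) ∈ d.2.1.zip d.2.2.1 ∨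
      (p.1 = p.2 ∧ p.1 ∉ st (bn M) d.p ∧ p.1 ∉ st (bn M) d.q)}
  rw [h]
  exact MeasurableSet.biInter (to_countable _) fun p _ => (MeasurableSet.const _).union
    ((MeasurableSet.const _).union ((MeasurableSet.const _).inter
      (((hMST d.p).1 p.1).compl.inter ((hMST d.q).1 p.1).compl)))

end MVC

open MVC in
theorem pf_MVC {C : Type} {c0 : C} [MeasurableSpace C] [StandardBorelSpace C]
    (hMST : T_MST C) (hMBV : T_MBV C) (hFIMP : T_FIMP C) (hGSW : T_GSW C c0) : T_MVC C c0 := by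
  intro n O hO l m
  have h : {M : St (C × ℕ) | BV c0 n M ∧ MvS O M l m} = {M : St (C × ℕ) | BV c0 n M} ∩
      ⋃ t ∈ O, ⋃ d : Dat, {M : St (C × ℕ) | Cond t d l m M} := by
    ext M
    simp only [mem_inter_iff, mem_ofPred_eq, mem_iUnion, exists_prop]
    constructor
    · rintro ⟨h1, h2⟩
      exact ⟨h1, cond_of_mv h2⟩
    · rintro ⟨h1, t, ht, d, h2⟩
      exact ⟨h1, mv_of_cond hGSW h1 ht h2⟩
  rw [h]
  exact (hMBV c0 n).inter (MeasurableSet.biUnion hO fun t _ =>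
    MeasurableSet.iUnion fun d => meas_cond hMST hFIMP t d l m)

end Pool.Agent.CW
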